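import Pool.Agent.Helper36.SPR.All

/-!
# MP_343216_nt: almost all odd integers with `k+1` binary ones have many prime factors

For every sufficiently large `k`, every `ε > 0` and `N → ∞`: all but a proportion
`200 / (ε² log log N)` of the odd integers `m < 2^N` with exactly `k+1` binary digits equal to `1` have
more than `(1 - ε) log log N` distinct prime factors.  In particular the `k`-class primes have relative
density zero among these integers.
-/

set_option autoImplicit false

namespace Pool.Agent.Results.MP_343216_nt.AlmostAllHaveManyPrimeFactors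

/-- There is `k₀` such that for every `k ≥ k₀`, every `0 < ε < 1` and all large `N`, the number of odd
`m < 2^N` with exactly `k+1` binary ones (binary digit sum `k+1`) which have at most
`(1 - ε) log log N` distinct prime factors (for large `N` these include all `k`-class primes below
`2^N`) is at most `200 / (ε² log log N)` times the number of all odd `m < 2^N` with exactly `k+1`
binary ones. -/
theorem result : ∃ k₀ : ℕ, ∀ k : ℕ, k₀ ≤ k → ∀ ε : ℝ, 0 < ε → ε < 1 → ∃ N₀ : ℕ,
    ∀ N : ℕ, N₀ ≤ N →
    (((Finset.range (2 ^ N)).filter (fun m => Odd m ∧ (Nat.digits 2 m).sum = k + 1 ∧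
      m.primeFactors.card ≤ ⌊(1 - ε) * Real.log (Real.log N)⌋₊)).card : ℝ)
      ≤ 200 / (ε ^ 2 * Real.log (Real.log N)) *
        (((Finset.range (2 ^ N)).filter
          (fun m => Odd m ∧ (Nat.digits 2 m).sum = k + 1)).card : ℝ) :=
  Pool.Agent.Helper36.SPR.aFIN3

end Pool.Agent.Results.MP_343216_nt.AlmostAllHaveManyPrimeFactors
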