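import Mathlib

/-!
# MP_343216_nt: integers with a fixed number of binary ones and only large prime factors

For every `k ≥ 1` there are infinitely many odd `m` with exactly `k + 1` binary ones all of whose prime
factors `l` satisfy `m < 2 ^ ((k + 1) ^ 2 l)`.
-/

set_option autoImplicit false

namespace Pool.Agent.Results.MP_343216_nt.LargePrimeFactors

/-- The digit sum of a sum without carries. -/
private lemma digits_shift (b n m : ℕ) (hn : n < 2 ^ b) (hm : 0 < m) :
    (Nat.digits 2 (n + 2 ^ b * m)).sum = (Nat.digits 2 n).sum + (Nat.digits 2 m).sum := by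
  have hlen : (Nat.digits 2 n).length ≤ b := (Nat.digits_length_le_iff (by norm_num) n).2 hn
  obtain ⟨k, hk⟩ := Nat.exists_eq_add_of_le hlen
  have h := Nat.digits_append_zeroes_append_digits (b := 2) (k := k) (m := m) (n := n)
    (by norm_num) hm
  rw [← hk] at h
  rw [← h]
  simp

/-- The number `1 + 2 ^ b + ... + 2 ^ ((q - 1) b)`. -/
private def cyc (b q : ℕ) : ℕ := ∑ i ∈ Finset.range q, (2 ^ b) ^ i

private lemma cyc_succ (b q : ℕ) : cyc b (q + 1) = 1 + 2 ^ b * cyc b q := by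
  unfold cyc
  rw [Finset.sum_range_succ', Finset.mul_sum, add_comm]
  congr 1
  apply Finset.sum_congr rfl
  intro i _
  ring

private lemma cyc_pos (b q : ℕ) (hq : 0 < q) : 0 < cyc b q := by
  obtain ⟨q, rfl⟩ := Nat.exists_eq_add_of_le' hq
  rw [cyc_succ]
  omega

private lemma digits_mul (b m : ℕ) (hm : m < 2 ^ b) (hm0 : 0 < m) (q : ℕ) :
    (Nat.digits 2 (m * cyc b q)).sum = q * (Nat.digits 2 m).sum := by
  induction q with
  | zero => simp [cyc]
  | succ q ih =>
    have e : m * cyc b (q + 1) = m + 2 ^ b * (m * cyc b q) := by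
      rw [cyc_succ]
      ring
    rw [e]
    rcases Nat.eq_zero_or_pos q with h0 | h0
    · subst h0
      simp [cyc]
    · rw [digits_shift b m _ hm (Nat.mul_pos hm0 (cyc_pos b q h0)), ih]
      ring

private lemma mul_lt (b m : ℕ) (hm : m < 2 ^ b) (q : ℕ) : m * cyc b q < 2 ^ (b * q) := by
  induction q with
  | zero => simp [cyc]
  | succ q ih =>
    calc m * cyc b (q + 1) = m + 2 ^ b * (m * cyc b q) := by
          rw [cyc_succ]
          ring
      _ < 2 ^ b + 2 ^ b * (m * cyc b q) := by omega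
      _ = 2 ^ b * (m * cyc b q + 1) := by ring
      _ ≤ 2 ^ b * 2 ^ (b * q) := Nat.mul_le_mul_left _ ih
      _ = 2 ^ (b * (q + 1)) := by
          rw [← pow_add]
          congr 1
          ring

private lemma cyc_odd (b q : ℕ) (hb : 0 < b) (hq : 0 < q) : Odd (cyc b q) := by
  obtain ⟨q, rfl⟩ := Nat.exists_eq_add_of_le' hq
  rw [cyc_succ]
  obtain ⟨b, rfl⟩ := Nat.exists_eq_add_of_le' hb
  refine ⟨2 ^ b * cyc (b + 1) q, ?_⟩
  ring

/-- The prime factors are large. -/
private lemma prime_gt (q s l : ℕ) (hq : q.Prime) (hl : l.Prime) (h : l ∣ cyc (q ^ s) q) :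
    q ^ (s + 1) < l := by
  have : Fact l.Prime := ⟨hl⟩
  have : Fact q.Prime := ⟨hq⟩
  have h0 : ∑ i ∈ Finset.range q, ((2 : ZMod l) ^ (q ^ s)) ^ i = 0 := by
    have h1 : ((cyc (q ^ s) q : ℕ) : ZMod l) = 0 := (ZMod.natCast_eq_zero_iff _ _).2 h
    unfold cyc at h1
    push_cast at h1
    exact h1
  have h1 : ((2 : ZMod l) ^ (q ^ s)) ^ q = 1 := by
    have h2 := geom_sum_mul ((2 : ZMod l) ^ (q ^ s)) q
    rw [h0, zero_mul] at h2
    exact (sub_eq_zero.1 h2.symm)
  have h2 : ¬ (2 : ZMod l) ^ (q ^ s) = 1 := by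
    intro hg
    rw [hg] at h0
    simp only [one_pow, Finset.sum_const, Finset.card_range, nsmul_eq_mul, mul_one] at h0
    have h3 : l ∣ q := (ZMod.natCast_eq_zero_iff _ _).1 h0
    have h4 : l = q := (Nat.prime_dvd_prime_iff_eq hl hq).1 h3
    subst h4
    rw [ZMod.pow_card_pow] at hg
    have h5 : (1 : ZMod l) = 0 := by linear_combination hg
    exact one_ne_zero h5
  have h3 : (2 : ZMod l) ^ (q ^ (s + 1)) = 1 := by
    rw [pow_succ, pow_mul]
    exact h1
  have h4 : orderOf (2 : ZMod l) = q ^ (s + 1) := orderOf_eq_prime_pow h2 h3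
  have h5 : (2 : ZMod l) ≠ 0 := by
    intro h
    rw [h, zero_pow (pow_ne_zero _ hq.ne_zero)] at h3
    exact zero_ne_one h3
  have h6 := ZMod.orderOf_dvd_card_sub_one h5
  rw [h4] at h6
  have h7 := Nat.le_of_dvd (by have := hl.one_lt; omega) h6
  have := hl.one_lt
  omega

private lemma main (K : ℕ) : 2 ≤ K → ∀ B : ℕ, ∃ m a : ℕ, B < m ∧ Odd m ∧ (Nat.digits 2 m).sum = K ∧
    m < 2 ^ a ∧ 1 ≤ a ∧ ∀ l : ℕ, l.Prime → l ∣ m → a ≤ K ^ 2 * l := by
  induction K using Nat.strong_induction_on with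
  | _ K ih =>
    intro hK B
    obtain ⟨q, hqK, hq⟩ : ∃ q, q = K.minFac ∧ q.Prime := ⟨_, rfl, Nat.minFac_prime (by omega)⟩
    obtain ⟨K', hK'⟩ : ∃ K', K = q * K' := by
      rw [hqK]
      exact K.minFac_dvd
    have hq2 := hq.two_le
    rcases Nat.lt_or_ge K' 2 with h1 | h1
    · -- `K` is prime
      have h2 : K' = 1 := by
        rcases Nat.eq_zero_or_pos K' with h | h
        · rw [h] at hK'
          omega
        · omega
      rw [h2, mul_one] at hK'
      refine ⟨cyc (q ^ B) q, q ^ (B + 1), ?_, ?_, ?_, ?_, Nat.one_le_pow _ _ hq.pos, ?_⟩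
      · obtain ⟨q', rfl⟩ := Nat.exists_eq_add_of_le' hq2
        rw [show q' + 2 = (q' + 1) + 1 by ring, cyc_succ]
        have h3 : 0 < cyc ((q' + 1 + 1) ^ B) (q' + 1) := cyc_pos _ _ (by omega)
        have h4 : B < (q' + 1 + 1) ^ B := Nat.lt_pow_self (by omega)
        have h5 : (q' + 1 + 1) ^ B < 2 ^ ((q' + 1 + 1) ^ B) := Nat.lt_two_pow_self
        calc B < 2 ^ ((q' + 1 + 1) ^ B) * 1 := by omega
          _ ≤ 2 ^ ((q' + 1 + 1) ^ B) * cyc ((q' + 1 + 1) ^ B) (q' + 1) := Nat.mul_le_mul_left _ h3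
          _ ≤ _ := by omega
      · exact cyc_odd _ _ (pow_pos hq.pos _) hq.pos
      · have h3 := digits_mul (q ^ B) 1 (Nat.one_lt_two_pow (pow_ne_zero _ hq.ne_zero)) (by norm_num) q
        rw [one_mul] at h3
        rw [h3, hK']
        norm_num
      · have h3 := mul_lt (q ^ B) 1 (Nat.one_lt_two_pow (pow_ne_zero _ hq.ne_zero)) q
        rw [one_mul] at h3
        rw [pow_succ]
        exact h3
      · intro l hl hlm
        have h3 := prime_gt q B l hq hl hlm
        have h4 : 1 ≤ K ^ 2 := Nat.one_le_pow _ _ (by omega)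
        calc q ^ (B + 1) ≤ l := h3.le
          _ = 1 * l := (one_mul l).symm
          _ ≤ K ^ 2 * l := Nat.mul_le_mul_right _ h4
    · -- a product
      have hlt : K' < K := by
        rw [hK']
        nlinarith
      obtain ⟨m, a, hB, hodd, hsum, hma, ha, hprime⟩ := ih K' hlt h1 B
      -- the least power of `q` which is at least `a`
      have hex : ∃ s, a ≤ q ^ s := ⟨a, (Nat.lt_pow_self (by omega)).le⟩
      obtain ⟨s, hs⟩ : ∃ s, s = Nat.find hex := ⟨_, rfl⟩
      have hs1 : a ≤ q ^ s := by rw [hs]; exact Nat.find_spec hex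
      have hs2 : q ^ (s + 1) ≤ q ^ 2 * a := by
        rcases Nat.eq_zero_or_pos s with h0 | h0
        · rw [h0]
          calc q ^ (0 + 1) = q * 1 := by ring
            _ ≤ q * (q * a) := Nat.mul_le_mul_left _ (Nat.mul_pos hq.pos ha)
            _ = q ^ 2 * a := by ring
        · obtain ⟨t, rfl⟩ := Nat.exists_eq_add_of_le' h0
          have h2 : ¬ a ≤ q ^ t := Nat.find_min hex (by omega)
          calc q ^ (t + 1 + 1) = q ^ 2 * q ^ t := by ring
            _ ≤ q ^ 2 * a := Nat.mul_le_mul_left _ (by omega)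
      have hm0 : 0 < m := by omega
      have hmb : m < 2 ^ (q ^ s) := lt_of_lt_of_le hma (Nat.pow_le_pow_right (by norm_num) hs1)
      refine ⟨m * cyc (q ^ s) q, q ^ (s + 1), ?_, ?_, ?_, ?_, Nat.one_le_pow _ _ hq.pos, ?_⟩
      · calc B < m * 1 := by omega
          _ ≤ m * cyc (q ^ s) q := Nat.mul_le_mul_left _ (cyc_pos _ _ hq.pos)
      · exact hodd.mul (cyc_odd _ _ (pow_pos hq.pos _) hq.pos)
      · rw [digits_mul _ m hmb hm0, hsum, hK']
      · have h3 := mul_lt (q ^ s) m hmb q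
        rw [pow_succ]
        exact h3
      · intro l hl hlm
        rcases (Nat.Prime.dvd_mul hl).1 hlm with h | h
        · have h3 := hprime l hl h
          calc q ^ (s + 1) ≤ q ^ 2 * a := hs2
            _ ≤ q ^ 2 * (K' ^ 2 * l) := Nat.mul_le_mul_left _ h3
            _ = K ^ 2 * l := by rw [hK']; ring
        · have h3 := prime_gt q s l hq hl h
          have h4 : 1 ≤ K ^ 2 := Nat.one_le_pow _ _ (by omega)
          calc q ^ (s + 1) ≤ l := h3.le
            _ = 1 * l := (one_mul l).symm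
            _ ≤ K ^ 2 * l := Nat.mul_le_mul_right _ h4

/-- For every `k ≥ 1` there are arbitrarily large odd `m` with exactly `k + 1` binary ones such that
every prime factor `l` of `m` satisfies `m < 2 ^ ((k + 1) ^ 2 l)`. -/
theorem result : ∀ k : ℕ, 1 ≤ k → ∀ B : ℕ, ∃ m : ℕ, B < m ∧ Odd m ∧ (Nat.digits 2 m).sum = k + 1 ∧
    ∀ l : ℕ, l.Prime → l ∣ m → m < 2 ^ ((k + 1) ^ 2 * l) := by
  intro k hk B
  obtain ⟨m, a, hB, hodd, hsum, hma, -, hprime⟩ := main (k + 1) (by omega) B
  exact ⟨m, hB, hodd, hsum, fun l hl hlm =>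
    lt_of_lt_of_le hma (Nat.pow_le_pow_right (by norm_num) (hprime l hl hlm))⟩

end Pool.Agent.Results.MP_343216_nt.LargePrimeFactors
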