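import Pool.Agent.Helper36.SPR.All5

/-!
# MP_343216_nt: an upper bound for the number of `k`-class primes below `2^N`

For every sufficiently large `k`, at most a proportion `(log N)^(-c)` of the odd integers `m < 2^N` with
exactly `k+1` binary digits equal to `1` are prime, where `c > 0` is an absolute constant.
-/

set_option autoImplicit false

namespace Pool.Agent.Results.MP_343216_nt.LogPowerUpperBound

/-- There are `k₀` and `c > 0` such that for every `k ≥ k₀` and all large `N`: the number of primes
`m < 2^N` which are odd and have exactly `k+1` binary ones (the `k`-class primes below `2^N`) is at most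
`(log N)^(-c)` times the number of all odd `m < 2^N` with exactly `k+1` binary ones. -/
theorem result : ∃ k₀ : ℕ, ∃ c : ℝ, 0 < c ∧ ∀ k : ℕ, k₀ ≤ k → ∃ N₀ : ℕ, ∀ N : ℕ, N₀ ≤ N →
    (((Finset.range (2 ^ N)).filter
      (fun m => m.Prime ∧ Odd m ∧ (Nat.digits 2 m).sum = k + 1)).card : ℝ)
      ≤ (((Finset.range (2 ^ N)).filter
          (fun m => Odd m ∧ (Nat.digits 2 m).sum = k + 1)).card : ℝ) / Real.log N ^ c :=
  Pool.Agent.Helper36.SPR.aFIN5

end Pool.Agent.Results.MP_343216_nt.LogPowerUpperBound
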